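import Pool.Agent.H11.QVMain

/-!
# The semigroup of quasivarieties of groups with a non-trivial identity is free

`Quasivariety.{u}` is the type of quasivarieties of groups (classes of groups in `Type u` defined
by a set of quasi-identities), `HasLaw` says that a non-trivial identity holds in all members.
The product of `X` and `Y` is the class of all groups `G` with a normal subgroup `N ∈ X` such that
`G ⧸ N ∈ Y`. We show that the quasivarieties with a non-trivial identity form a free monoid under
this product.
-/

set_option autoImplicit false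

universe u

namespace Pool.Agent.Results.MP_5bbf46_al.FreeSemigroup

open Pool.Agent.H11.QV

/-- Sanity check: every set of quasi-identities defines a quasivariety. -/
def ofSet (Φ : Set QuasiIdentity) : Quasivariety.{u} where
  Mem := fun G _ => ∀ φ ∈ Φ, φ.Holds G
  axiomatised := ⟨Φ, fun _ _ => Iff.rfl⟩

/-- Sanity check: the abelian groups form a quasivariety with a non-trivial identity. -/
theorem abelian_example : ∃ X : Quasivariety.{u}, X.HasLaw ∧
    ∀ (G : Type u) [Group G], X.Mem G ↔ ∀ a b : G, a * b = b * a := by
  let w : FreeGroup (Fin 2) := FreeGroup.of 0 * FreeGroup.of 1 * (FreeGroup.of 0)⁻¹ *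
    (FreeGroup.of 1)⁻¹
  have key : ∀ (G : Type u) [Group G], (∀ φ ∈ ({⟨2, [], w⟩} : Set QuasiIdentity), φ.Holds G) ↔
      ∀ a b : G, a * b = b * a := by
    intro G _
    constructor
    · intro h a b
      have h1 := h _ rfl ![a, b] (by simp)
      simp only [w, map_mul, map_inv, FreeGroup.lift_apply_of, Matrix.cons_val_zero,
        Matrix.cons_val_one] at h1
      exact mul_inv_eq_iff_eq_mul.1 (mul_inv_eq_one.1 h1)
    · rintro h φ rfl x _
      simp only [w, map_mul, map_inv, FreeGroup.lift_apply_of]
      rw [h (x 0) (x 1)]
      group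
  let q : QuasiIdentity := ⟨2, [], w⟩
  refine ⟨ofSet {q}, ⟨2, w, ?_, ?_⟩, fun G _ => key G⟩
  · simp only [w]
    decide
  · intro G _ hG x
    exact hG ⟨2, [], w⟩ rfl x (by simp)

/-- **The semigroup of quasivarieties of groups satisfying a non-trivial identity is free.**
There is a bijection `e` from a free monoid onto the set of quasivarieties with a non-trivial
identity which takes the product of the free monoid to the product of quasivarieties. -/
theorem result :
    ∃ (α : Type (u + 1)) (e : FreeMonoid α ≃ {X : Quasivariety.{u} // X.HasLaw}),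
      ∀ (a b : FreeMonoid α) (G : Type u) [Group G],
        (e (a * b)).1.Mem G ↔
          ∃ N : Subgroup G, ∃ _ : N.Normal, (e a).1.Mem N ∧ (e b).1.Mem (G ⧸ N) := by
  obtain ⟨α, ⟨e⟩⟩ := Pool.Agent.H11.QV.main.{u}
  refine ⟨α, e.toEquiv, fun a b G _ => ?_⟩
  have h : e (a * b) = e a * e b := map_mul e a b
  change (e (a * b)).1.Mem G ↔ _
  rw [h]
  exact Iff.rfl

end Pool.Agent.Results.MP_5bbf46_al.FreeSemigroup
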